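import Mathlib
import Pool.Agent.Lib.MP_64d474_lc.Op.S9

/-!
# Ranks on small grids, up to a small loss

A matrix function of several variables that is affine in every variable nearly attains its largest
rank on a grid whose size does not depend on the size of the matrices.
-/

open Matrix Module

set_option linter.unusedSectionVars false

namespace Pool.Agent.Lib.MP_64d474_lc.Pc2

/-- a matrix function that is affine in every variable -/
def Aff {F ι α : Type*} [Field F] [DecidableEq ι] (G : (ι → F) → Matrix α α F) : Prop :=
  ∀ (x : ι → F) (j : ι), ∃ A B : Matrix α α F, ∀ s : F, G (Function.update x j s) = A + s • B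

/-- the rank of a pencil at small natural numbers -/
theorem pencil {F : Type*} [Field F] [CharZero F] {α : Type*} [Fintype α] (A B : Matrix α α F)
    (z₀ : F) (K : ℕ) :
    ∃ z : ℕ, z ≤ K ∧ K * (A + z₀ • B).rank ≤ (K + 1) * (A + (z : F) • B).rank := by
  classical
  obtain ⟨z, hz, h⟩ := Op.stPencil F _ _ K
    (A.submatrix (Fintype.equivFin α).symm (Fintype.equivFin α).symm)
    (B.submatrix (Fintype.equivFin α).symm (Fintype.equivFin α).symm) z₀
  refine ⟨z, hz, ?_⟩
  have h1 : ∀ w : F, A.submatrix (Fintype.equivFin α).symm (Fintype.equivFin α).symm +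
      w • B.submatrix (Fintype.equivFin α).symm (Fintype.equivFin α).symm =
      (A + w • B).submatrix (Fintype.equivFin α).symm (Fintype.equivFin α).symm := fun w => rfl
  rw [h1, h1, Matrix.rank_submatrix, Matrix.rank_submatrix] at h
  exact h

/-- the rank on a small grid, up to a small loss -/
theorem robust {F : Type*} [Field F] [CharZero F] {ι α : Type*} [Fintype ι] [DecidableEq ι]
    [Fintype α] (G : (ι → F) → Matrix α α F) (hG : Aff G) (N : ℕ) (x₀ : ι → F) :
    ∃ v : ι → ℕ, (∀ i, v i ≤ N) ∧
      (N + 1) * (G x₀).rank ≤
        (N + 1) * (G fun i => (v i : F)).rank + Fintype.card ι * (G x₀).rank := by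
  classical
  have key : ∀ s : Finset ι, ∃ v : ι → ℕ, (∀ i, v i ≤ N) ∧
      (N + 1) * (G x₀).rank ≤ (N + 1) * (G (s.piecewise (fun i => (v i : F)) x₀)).rank +
        s.card * (G x₀).rank := by
    intro s
    induction s using Finset.induction_on with
    | empty =>
      refine ⟨fun _ => 0, fun _ => Nat.zero_le _, ?_⟩
      rw [Finset.piecewise_empty, Finset.card_empty, zero_mul, add_zero]
    | insert i s hi ih =>
      obtain ⟨v, hv, h⟩ := ih
      obtain ⟨A, B, hAB⟩ := hG (s.piecewise (fun i => (v i : F)) x₀) i
      obtain ⟨z, hz, h1⟩ := pencil A B (s.piecewise (fun i => (v i : F)) x₀ i) N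
      rw [← hAB, ← hAB, Function.update_eq_self] at h1
      refine ⟨Function.update v i z, fun j => ?_, ?_⟩
      · by_cases hj : j = i
        · subst hj
          rw [Function.update_self]
          exact hz
        · rw [Function.update_of_ne hj]
          exact hv j
      · have h2 : (insert i s).piecewise (fun j => ((Function.update v i z j : ℕ) : F)) x₀ =
            Function.update (s.piecewise (fun i => (v i : F)) x₀) i (z : F) := by
          funext j
          by_cases hj : j = i
          · subst hj
            rw [Function.update_self, Finset.piecewise_eq_of_mem _ _ _ (Finset.mem_insert_self _ _),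
              Function.update_self]
          · rw [Function.update_of_ne hj]
            by_cases hs : j ∈ s
            · rw [Finset.piecewise_eq_of_mem _ _ _ (Finset.mem_insert_of_mem hs),
                Finset.piecewise_eq_of_mem _ _ _ hs, Function.update_of_ne hj]
            · rw [Finset.piecewise_eq_of_notMem _ _ _ (by
                rw [Finset.mem_insert]
                tauto), Finset.piecewise_eq_of_notMem _ _ _ hs]
        rw [h2, Finset.card_insert_of_notMem hi]
        generalize (G x₀).rank = ρ at *
        generalize (G (s.piecewise (fun i => (v i : F)) x₀)).rank = r at *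
        generalize (G (Function.update (s.piecewise (fun i => (v i : F)) x₀) i (z : F))).rank =
          r' at *
        rcases le_total ρ r with h3 | h3
        · have h4 : N * ρ ≤ N * r := Nat.mul_le_mul_left _ h3
          calc (N + 1) * ρ = N * ρ + ρ := by ring
            _ ≤ (N + 1) * r' + ρ := by omega
            _ ≤ (N + 1) * r' + (s.card + 1) * ρ := by
                have : ρ ≤ (s.card + 1) * ρ := Nat.le_mul_of_pos_left _ (Nat.succ_pos _)
                omega
        · calc (N + 1) * ρ ≤ (N + 1) * r + s.card * ρ := h
            _ = N * r + r + s.card * ρ := by ring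
            _ ≤ (N + 1) * r' + ρ + s.card * ρ := by omega
            _ = (N + 1) * r' + (s.card + 1) * ρ := by ring
  obtain ⟨v, hv, h⟩ := key Finset.univ
  refine ⟨v, hv, ?_⟩
  rw [Finset.piecewise_univ, Finset.card_univ] at h
  exact h

end Pool.Agent.Lib.MP_64d474_lc.Pc2
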