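import Mathlib
import Pool.Agent.Lib.MP_64d474_lc.Pc.Main
import Pool.Agent.Lib.MP_64d474_lc.Pc.Phase1R
import Pool.Agent.Lib.MP_64d474_lc.Pc2.Robust

/-!
# One place without a twist, small parameters at the other places
-/

open Matrix Module

set_option linter.unusedSectionVars false

namespace Pool.Agent.Lib.MP_64d474_lc.Pc2

open Pool.Agent.Lib.MP_64d474_lc.Op (sgn)
open Pool.Agent.Lib.MP_64d474_lc.Nc Pool.Agent.Lib.MP_64d474_lc.Pc

section Double

variable {I : Type*} [Fintype I] [DecidableEq I] {n m : ℕ}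

/-- indices of two copies -/
def idx (n : ℕ) : Fin n × Fin 2 ≃ Fin (2 * n) := (Equiv.prodComm _ _).trans finProdFinEquiv

/-- two copies of a matrix -/
def twice {R : Type*} [CommRing R] (B : Matrix (Fin n) (Fin n) R) :
    Matrix (Fin (2 * n)) (Fin (2 * n)) R :=
  (kroneckerMap (· * ·) B (1 : Matrix (Fin 2) (Fin 2) R)).submatrix (idx n).symm (idx n).symm

/-- the rank of two copies -/
theorem rank_big_twice {F : Type*} [Field F] (c e : I → F)
    (P : Fin m → Matrix (I → ZMod 2) (I → ZMod 2) ℤ) (B : Fin m → Matrix (Fin n) (Fin n) F) :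
    (big c e P fun j => twice (B j)).rank = 2 * (big c e P B).rank := by
  classical
  let E : ((I → ZMod 2) × Fin n) × Fin 2 ≃ (I → ZMod 2) × Fin (2 * n) :=
    (Equiv.prodAssoc _ _ _).trans ((Equiv.refl _).prodCongr (idx n))
  have h1 : (big c e P fun j => twice (B j)).submatrix E E =
      kroneckerMap (· * ·) (big c e P B) (1 : Matrix (Fin 2) (Fin 2) F) := by
    ext p q
    obtain ⟨⟨x, a⟩, s⟩ := p
    obtain ⟨⟨y, b⟩, s'⟩ := q
    have hE : ∀ (x : I → ZMod 2) (a : Fin n) (s : Fin 2), E ((x, a), s) = (x, idx n (a, s)) :=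
      fun _ _ _ => rfl
    rw [Matrix.submatrix_apply, hE, hE, big, Matrix.kroneckerMap_apply, big, Finset.sum_mul]
    refine Finset.sum_congr rfl fun k _ => ?_
    simp only [twice, Matrix.submatrix_apply, Equiv.symm_apply_apply, Matrix.kroneckerMap_apply]
    ring
  rw [← Matrix.rank_submatrix _ E E, h1, Phase1R.rank_kron_one, Fintype.card_fin]

end Double

section Affine

variable {I : Type*} [Fintype I] [DecidableEq I] {F : Type*} [Field F]

theorem prod_update {ι R : Type*} [CommRing R] [Fintype ι] [DecidableEq ι] (f : ι → R → R)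
    (c : ι → R) (i : ι) (s : R) :
    ∏ j, f j (Function.update c i s j) = f i s * ∏ j ∈ Finset.univ.erase i, f j (c j) := by
  rw [← Finset.mul_prod_erase Finset.univ _ (Finset.mem_univ i), Function.update_self]
  congr 1
  refine Finset.prod_congr rfl fun j hj => ?_
  rw [Function.update_of_ne (Finset.ne_of_mem_erase hj)]

theorem tw_update_c (c e : I → F) (i : I) (T : Matrix (I → ZMod 2) (I → ZMod 2) ℤ) :
    ∃ A B : (I → ZMod 2) → (I → ZMod 2) → F,
      ∀ s x y, tw (Function.update c i s) e T x y = A x y + s * B x y := by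
  refine ⟨fun x y => (∑ z, (∏ j ∈ Finset.univ.erase i, (1 + ((sgn (x j + z j) : ℤ) : F) * c j)) *
      ((T z (z + x + y) : ℤ) : F)) * ∏ i, if x i = y i then 1 else e i,
    fun x y => (∑ z, ((sgn (x i + z i) : ℤ) : F) *
      (∏ j ∈ Finset.univ.erase i, (1 + ((sgn (x j + z j) : ℤ) : F) * c j)) *
      ((T z (z + x + y) : ℤ) : F)) * ∏ i, if x i = y i then 1 else e i, fun s x y => ?_⟩
  have h : ∀ z : I → ZMod 2, ∏ j, (1 + ((sgn (x j + z j) : ℤ) : F) * Function.update c i s j) =
      (1 + ((sgn (x i + z i) : ℤ) : F) * s) *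
        ∏ j ∈ Finset.univ.erase i, (1 + ((sgn (x j + z j) : ℤ) : F) * c j) := fun z =>
    prod_update (fun j a => 1 + ((sgn (x j + z j) : ℤ) : F) * a) c i s
  rw [tw]
  simp only [h]
  rw [← mul_assoc, Finset.mul_sum, ← add_mul, ← Finset.sum_add_distrib]
  congr 1
  refine Finset.sum_congr rfl fun z _ => ?_
  ring

theorem tw_update_e (c e : I → F) (i : I) (T : Matrix (I → ZMod 2) (I → ZMod 2) ℤ) :
    ∃ A B : (I → ZMod 2) → (I → ZMod 2) → F,
      ∀ s x y, tw c (Function.update e i s) T x y = A x y + s * B x y := by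
  refine ⟨fun x y => (∑ z, (∏ i, (1 + ((sgn (x i + z i) : ℤ) : F) * c i)) *
      ((T z (z + x + y) : ℤ) : F)) * ((if x i = y i then 1 else 0) *
        ∏ j ∈ Finset.univ.erase i, if x j = y j then 1 else e j),
    fun x y => (∑ z, (∏ i, (1 + ((sgn (x i + z i) : ℤ) : F) * c i)) *
      ((T z (z + x + y) : ℤ) : F)) * ((if x i = y i then 0 else 1) *
        ∏ j ∈ Finset.univ.erase i, if x j = y j then 1 else e j), fun s x y => ?_⟩
  have h : (∏ j, if x j = y j then (1 : F) else Function.update e i s j) =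
      (if x i = y i then 1 else s) * ∏ j ∈ Finset.univ.erase i, if x j = y j then 1 else e j :=
    prod_update (fun j a => if x j = y j then 1 else a) e i s
  rw [tw, h]
  by_cases hxy : x i = y i
  · simp only [if_pos hxy]
    ring
  · simp only [if_neg hxy]
    ring

variable {κ ι : Type*} [Fintype κ]

theorem big_update_c (c e : I → F) (i : I) (P : κ → Matrix (I → ZMod 2) (I → ZMod 2) ℤ)
    (b : κ → Matrix ι ι F) : ∃ A B : Matrix ((I → ZMod 2) × ι) ((I → ZMod 2) × ι) F,
      ∀ s : F, big (Function.update c i s) e P b = A + s • B := by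
  choose A B h using fun k => tw_update_c c e i (P k)
  refine ⟨Matrix.of fun p q => ∑ k, A k p.1 q.1 * b k p.2 q.2,
    Matrix.of fun p q => ∑ k, B k p.1 q.1 * b k p.2 q.2, fun s => ?_⟩
  ext p q
  rw [Matrix.add_apply, Matrix.smul_apply, smul_eq_mul, Matrix.of_apply, Matrix.of_apply, big,
    Finset.mul_sum, ← Finset.sum_add_distrib]
  refine Finset.sum_congr rfl fun k _ => ?_
  rw [h]
  ring

theorem big_update_e (c e : I → F) (i : I) (P : κ → Matrix (I → ZMod 2) (I → ZMod 2) ℤ)
    (b : κ → Matrix ι ι F) : ∃ A B : Matrix ((I → ZMod 2) × ι) ((I → ZMod 2) × ι) F,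
      ∀ s : F, big c (Function.update e i s) P b = A + s • B := by
  choose A B h using fun k => tw_update_e c e i (P k)
  refine ⟨Matrix.of fun p q => ∑ k, A k p.1 q.1 * b k p.2 q.2,
    Matrix.of fun p q => ∑ k, B k p.1 q.1 * b k p.2 q.2, fun s => ?_⟩
  ext p q
  rw [Matrix.add_apply, Matrix.smul_apply, smul_eq_mul, Matrix.of_apply, Matrix.of_apply, big,
    Finset.mul_sum, ← Finset.sum_add_distrib]
  refine Finset.sum_congr rfl fun k _ => ?_
  rw [h]
  ring

end Affine

/-- small integer parameters in all factors but the last -/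
theorem grid_last.{u} (hT : StTorus.{u}) (hS : StSymRank.{u}) {F : Type u} [Field F] [CharZero F]
    {n m r : ℕ} (X : Data (2 * n) r) {I I' : Type} [Fintype I] [DecidableEq I] [Fintype I']
    [DecidableEq I'] (P : Fin m → Matrix (I → ZMod 2) (I → ZMod 2) ℤ) (σ : Fin m → Fin r)
    (Z : Fin r → Matrix (I' → ZMod 2) (I' → ZMod 2) ℤ) (B : Fin m → Matrix (Fin n) (Fin n) F)
    (hGN : GN (fun j => two (P j) (Z (σ j))) B) (N : ℕ) (hN : 4 * n * Fintype.card I ≤ N) :
    ∃ c e : I → ℕ, (∀ i, c i ≤ N) ∧ (∀ i, e i ≤ N) ∧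
      2 ^ X.t * (n * 2 ^ Fintype.card I) <
      (big (Sum.elim (fun i => (c i : F)) fun _ => 1) (Sum.elim (fun i => (e i : F)) fun _ => 1)
        (fun j => two (P j) (X.T (σ j))) B).rank + 2 ^ X.t * 2 ^ Fintype.card I := by
  classical
  -- two copies
  have hGN' : GN (fun j => two (P j) (Z (σ j))) fun j => twice (B j) := by
    obtain ⟨c, e, h⟩ := hGN
    refine ⟨c, e, MainAux.det_ne_zero_of_rank _ ?_⟩
    rw [rank_big_twice, Hit.rank_of_det_ne_zero _ h, Fintype.card_prod, Fintype.card_prod,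
      Fintype.card_fin, Fintype.card_fin]
    exact le_of_eq (by ring)
  obtain ⟨c₀, e₀, -, -, h0⟩ := LastAux.grid_last hT hS X P σ Z (fun j => twice (B j)) hGN'
  rw [rank_big_twice] at h0
  -- the matrix as a function of the parameters
  let G : (I ⊕ I → F) → Matrix ((I ⊕ Fin X.t → ZMod 2) × Fin n) ((I ⊕ Fin X.t → ZMod 2) × Fin n) F :=
    fun x => big (Sum.elim (fun i => x (Sum.inl i)) fun _ => 1)
      (Sum.elim (fun i => x (Sum.inr i)) fun _ => 1) (fun j => two (P j) (X.T (σ j))) B
  have hG : Aff G := by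
    intro x j
    rcases j with j | j
    · obtain ⟨A, C, h⟩ := big_update_c (Sum.elim (fun i => x (Sum.inl i)) fun _ => 1)
        (Sum.elim (fun i => x (Sum.inr i)) fun _ => 1) (Sum.inl j)
        (fun j => two (P j) (X.T (σ j))) B
      refine ⟨A, C, fun s => (Eq.trans ?_ (h s))⟩
      have e1 : (Sum.elim (fun i => Function.update x (Sum.inl j) s (Sum.inl i)) fun _ => 1 :
          I ⊕ Fin X.t → F) =
          Function.update (Sum.elim (fun i => x (Sum.inl i)) fun _ => 1) (Sum.inl j) s := by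
        funext i
        rcases i with i | i
        · by_cases hi : i = j
          · subst hi
            simp
          · simp [hi]
        · simp
      have e2 : (Sum.elim (fun i => Function.update x (Sum.inl j) s (Sum.inr i)) fun _ => 1 :
          I ⊕ Fin X.t → F) = Sum.elim (fun i => x (Sum.inr i)) fun _ => 1 := by
        funext i
        rcases i with i | i
        · simp
        · simp
      simp only [G]
      rw [e1, e2]
    · obtain ⟨A, C, h⟩ := big_update_e (Sum.elim (fun i => x (Sum.inl i)) fun _ => 1)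
        (Sum.elim (fun i => x (Sum.inr i)) fun _ => 1) (Sum.inl j)
        (fun j => two (P j) (X.T (σ j))) B
      refine ⟨A, C, fun s => (Eq.trans ?_ (h s))⟩
      have e1 : (Sum.elim (fun i => Function.update x (Sum.inr j) s (Sum.inr i)) fun _ => 1 :
          I ⊕ Fin X.t → F) =
          Function.update (Sum.elim (fun i => x (Sum.inr i)) fun _ => 1) (Sum.inl j) s := by
        funext i
        rcases i with i | i
        · by_cases hi : i = j
          · subst hi
            simp
          · simp [hi]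
        · simp
      have e2 : (Sum.elim (fun i => Function.update x (Sum.inr j) s (Sum.inl i)) fun _ => 1 :
          I ⊕ Fin X.t → F) = Sum.elim (fun i => x (Sum.inl i)) fun _ => 1 := by
        funext i
        rcases i with i | i
        · simp
        · simp
      simp only [G]
      rw [e1, e2]
  obtain ⟨v, hv, h1⟩ := robust G hG N (Sum.elim (fun i => (c₀ i : F)) fun i => (e₀ i : F))
  have h2 : G (Sum.elim (fun i => (c₀ i : F)) fun i => (e₀ i : F)) =
      big (Sum.elim (fun i => (c₀ i : F)) fun _ => 1) (Sum.elim (fun i => (e₀ i : F)) fun _ => 1)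
        (fun j => two (P j) (X.T (σ j))) B := rfl
  have hcard : Fintype.card ((I ⊕ Fin X.t → ZMod 2) × Fin n) =
      2 ^ X.t * (n * 2 ^ Fintype.card I) := by
    rw [Fintype.card_prod, Fintype.card_fun, ZMod.card, Fintype.card_fin, Fintype.card_sum,
      Fintype.card_fin, pow_add]
    ring
  have h3 := (G (Sum.elim (fun i => (c₀ i : F)) fun i => (e₀ i : F))).rank_le_card_width
  rw [hcard] at h3
  rw [← h2] at h0
  refine ⟨fun i => v (Sum.inl i), fun i => v (Sum.inr i), fun i => hv _, fun i => hv _, ?_⟩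
  change _ < (G fun i => (v i : F)).rank + _
  rw [Fintype.card_sum] at h1
  generalize (G (Sum.elim (fun i => (c₀ i : F)) fun i => (e₀ i : F))).rank = ρ at *
  generalize (G fun i => (v i : F)).rank = ρ' at *
  generalize Fintype.card I = a at *
  by_contra hcon
  rw [not_lt] at hcon
  have h4 : 2 ^ X.t * (2 * n * 2 ^ a) = 2 * (2 ^ X.t * (n * 2 ^ a)) := by ring
  rw [h4] at h0
  have h6 : 2 ^ X.t * (n * 2 ^ a) = n * (2 ^ X.t * 2 ^ a) := by ring
  rw [h6] at h0 h3 hcon
  have hD : 0 < 2 ^ X.t * 2 ^ a := by positivity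
  generalize 2 ^ X.t * 2 ^ a = D at *
  clear h2 h4 h6 hcard hv hG
  have h7 : (a + a) * ρ ≤ (a + a) * (n * D) := Nat.mul_le_mul_left _ h3
  have h8 : 2 * ((a + a) * (n * D)) ≤ N * D := by
    calc 2 * ((a + a) * (n * D)) = 4 * n * a * D := by ring
      _ ≤ N * D := Nat.mul_le_mul_right _ hN
  have h9 : (N + 1) * (ρ' + D) ≤ (N + 1) * (n * D) := Nat.mul_le_mul_left _ hcon
  have h10 : (N + 1) * (2 * (n * D)) < (N + 1) * (2 * ρ + D) :=
    Nat.mul_lt_mul_of_pos_left h0 (Nat.succ_pos N)
  nlinarith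

end Pool.Agent.Lib.MP_64d474_lc.Pc2
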