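import Mathlib
import Pool.Agent.Lib.MP_64d474_lc.Pc.Tests

/-!
# The explicit tests for partially commutative symbolic matrices
-/

open Matrix Module

set_option linter.unusedSectionVars false

namespace Pool.Agent.Lib.MP_64d474_lc.Pc2

open Pool.Agent.Lib.MP_64d474_lc.Nc Pool.Agent.Lib.MP_64d474_lc.Pc

/-- the parameters `p`, and `1` at the place `i₀` -/
def par {k t N : ℕ} (i₀ : Fin k) (p : Fin k × Fin t → Fin (N + 1)) (i : Fin k × Fin t) : ℤ :=
  if i.1 = i₀ then 1 else (p i : ℤ)

/-- the twists of the explicit tuple with parameters between `0` and `N`, without twist at the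
place `i₀` -/
def tests {n m k : ℕ} (X : Data n (m + 1)) (cl : Fin m → Fin k) (i₀ : Fin k) (N : ℕ) :
    Finset (Fin m → Matrix (Fin k × Fin X.t → ZMod 2) (Fin k × Fin X.t → ZMod 2) ℤ) :=
  Finset.univ.image fun p : (Fin k × Fin X.t → Fin (N + 1)) × (Fin k × Fin X.t → Fin (N + 1)) =>
    fun j => twist (par i₀ p.1) (par i₀ p.2) (ptup X cl j)

end Pool.Agent.Lib.MP_64d474_lc.Pc2
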