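import Mathlib
import Pool.Agent.Lib.MP_64d474_lc.Pc.Final
import Pool.Agent.Lib.MP_64d474_lc.Pc2.Tests2
import Pool.Agent.Lib.MP_64d474_lc.Pc2.Last2

/-!
# The tests for partially commutative symbolic matrices
-/

open Matrix Module

set_option linter.unusedSectionVars false

namespace Pool.Agent.Lib.MP_64d474_lc.Pc2

open Pool.Agent.Lib.MP_64d474_lc.Op (sgn)
open Pool.Agent.Lib.MP_64d474_lc.Nc Pool.Agent.Lib.MP_64d474_lc.Pc

/-- the size of the other factors -/
theorem card_oth {k t : ℕ} (i₀ : Fin k) :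
    Fintype.card ({i : Fin k // i ≠ i₀} × Fin t) = (k - 1) * t := by
  rw [Fintype.card_prod, Fintype.card_fin, Fintype.card_subtype_compl, Fintype.card_fin,
    Fintype.card_subtype_eq]

/-- parameters with bounds give a test -/
theorem mem_tests {n m k : ℕ} {X : Data n (m + 1)} {cl : Fin m → Fin k} {i₀ : Fin k} {N : ℕ}
    {c e : Fin k × Fin X.t → ℕ} (hc : ∀ i, c i ≤ N) (he : ∀ i, e i ≤ N) :
    (fun j => twist (fun i => if i.1 = i₀ then 1 else (c i : ℤ))
      (fun i => if i.1 = i₀ then 1 else (e i : ℤ)) (ptup X cl j)) ∈ tests X cl i₀ N :=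
  Finset.mem_image.mpr ⟨(fun i => ⟨c i, Nat.lt_succ_of_le (hc i)⟩,
    fun i => ⟨e i, Nat.lt_succ_of_le (he i)⟩), Finset.mem_univ _, rfl⟩

theorem card_tests {n m k : ℕ} (X : Data n (m + 1)) (cl : Fin m → Fin k) (i₀ : Fin k) (N : ℕ) :
    (tests X cl i₀ N).card ≤ (N + 1) ^ (2 * ((k - 1) * X.t)) := by
  classical
  let P : ({i : Fin k // i ≠ i₀} × Fin X.t → Fin (N + 1)) → Fin k × Fin X.t → ℤ :=
    fun p i => if h : i.1 = i₀ then 1 else (p (⟨i.1, h⟩, i.2) : ℤ)
  have h : tests X cl i₀ N ⊆ Finset.univ.image fun p :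
      ({i : Fin k // i ≠ i₀} × Fin X.t → Fin (N + 1)) ×
      ({i : Fin k // i ≠ i₀} × Fin X.t → Fin (N + 1)) =>
      fun j => twist (P p.1) (P p.2) (ptup X cl j) := by
    intro Y hY
    obtain ⟨p, -, rfl⟩ := Finset.mem_image.mp hY
    refine Finset.mem_image.mpr ⟨(fun i => p.1 (i.1.1, i.2), fun i => p.2 (i.1.1, i.2)),
      Finset.mem_univ _, ?_⟩
    have e : ∀ q : Fin k × Fin X.t → Fin (N + 1), P (fun i => q (i.1.1, i.2)) = par i₀ q := by
      intro q
      funext i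
      simp only [P, par]
      by_cases hi : i.1 = i₀
      · rw [dif_pos hi, if_pos hi]
      · rw [dif_neg hi, if_neg hi]
    funext j
    simp only [e]
  refine (Finset.card_le_card h).trans (Finset.card_image_le.trans (le_of_eq ?_))
  rw [Finset.card_univ, Fintype.card_prod, Fintype.card_fun, Fintype.card_fin, card_oth,
    ← pow_add, two_mul]

theorem exists_last.{u} (hT : StTorus.{u}) (hS : StSymRank.{u}) {F : Type u} [Field F] [CharZero F]
    {n m k : ℕ} (X : Data (2 * n) (m + 1)) (cl : Fin m → Fin k)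
    (B : Fin m → Matrix (Fin n) (Fin n) F) (hGN : GN (ptup X cl) B) (i₀ : Fin k) (N : ℕ)
    (hN : 4 * n * ((k - 1) * X.t) ≤ N) :
    ∃ c e : Fin k × Fin X.t → ℕ, (∀ i, c i ≤ N) ∧ (∀ i, e i ≤ N) ∧
      2 ^ (k * X.t) * n <
        (tens (cst F fun j => twist (fun i => if i.1 = i₀ then 1 else (c i : ℤ))
          (fun i => if i.1 = i₀ then 1 else (e i : ℤ)) (ptup X cl j)) B).rank +
          2 ^ (k * X.t) := by
  classical
  have h1 := Phase2.gn_re (LastAux.spl X.t i₀) (ptup X cl)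
    (fun j => two (LastAux.oth X cl i₀ j) (X.T (slot cl i₀ j))) B (LastAux.ptup_split X cl i₀) hGN
  obtain ⟨c, e, hc, he, h2⟩ := grid_last hT hS X (LastAux.oth X cl i₀) (slot cl i₀) X.T B h1 N
    (by rw [card_oth]; exact hN)
  have hk : 0 < k := (Nat.zero_le _).trans_lt i₀.2
  have hcard : 2 ^ X.t * 2 ^ Fintype.card ({i : Fin k // i ≠ i₀} × Fin X.t) = 2 ^ (k * X.t) := by
    rw [card_oth, ← pow_add]
    congr 1
    generalize X.t = t
    obtain ⟨k', rfl⟩ := Nat.exists_eq_succ_of_ne_zero hk.ne'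
    rw [Nat.succ_sub_one, Nat.succ_eq_add_one]
    ring
  have hcard' : 2 ^ X.t * (n * 2 ^ Fintype.card ({i : Fin k // i ≠ i₀} × Fin X.t)) =
      n * 2 ^ (k * X.t) := by
    rw [← hcard]
    ring
  rw [hcard'] at h2
  rw [hcard] at h2
  -- parameters on all places
  let C : Fin k × Fin X.t → ℕ := fun p => if h : p.1 = i₀ then 0 else c (⟨p.1, h⟩, p.2)
  let E : Fin k × Fin X.t → ℕ := fun p => if h : p.1 = i₀ then 0 else e (⟨p.1, h⟩, p.2)
  refine ⟨C, E, fun p => ?_, fun p => ?_, ?_⟩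
  · simp only [C]
    split_ifs
    · exact Nat.zero_le _
    · exact hc _
  · simp only [E]
    split_ifs
    · exact Nat.zero_le _
    · exact he _
  rw [← Grid.big_eq_tens, mul_comm (2 ^ (k * X.t)) n]
  refine lt_of_lt_of_eq h2 ?_
  congr 1
  have e1 : ∀ (a : {i : Fin k // i ≠ i₀} × Fin X.t → ℕ),
      (Sum.elim (fun i => (a i : F)) fun _ => 1 :
        ({i : Fin k // i ≠ i₀} × Fin X.t) ⊕ Fin X.t → F) = fun i =>
        (((if (LastAux.spl X.t i₀ i).1 = i₀ then 1 else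
          ((if h : (LastAux.spl X.t i₀ i).1 = i₀ then 0 else
          a (⟨(LastAux.spl X.t i₀ i).1, h⟩, (LastAux.spl X.t i₀ i).2) : ℕ) : ℤ) : ℤ)) : F) := by
    intro a
    funext i
    rcases i with ⟨⟨i, h⟩, b⟩ | b
    · have e2 : LastAux.spl X.t i₀ (Sum.inl (⟨i, h⟩, b)) = (i, b) := rfl
      rw [e2, if_neg h, dif_neg h]
      simp
    · have e2 : LastAux.spl X.t i₀ (Sum.inr b) = (i₀, b) := rfl
      rw [e2, if_pos rfl]
      simp
  rw [e1 c, e1 e]
  have h3 := LastAux.big_re (R := F) (LastAux.spl X.t i₀)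
    (fun p => (((if p.1 = i₀ then 1 else (C p : ℤ) : ℤ)) : F))
    (fun p => (((if p.1 = i₀ then 1 else (E p : ℤ) : ℤ)) : F)) (ptup X cl)
    (fun j => two (LastAux.oth X cl i₀ j) (X.T (slot cl i₀ j))) B (LastAux.ptup_split X cl i₀)
  have h4 := congrArg Matrix.rank h3
  rw [Matrix.rank_submatrix] at h4
  exact h4

/-- the tests and the rank -/
theorem rank_tests.{u} {F : Type u} [Field F] [CharZero F] {n m k : ℕ} (X : Data (2 * n) (m + 1))
    (cl : Fin m → Fin k) (i₀ : Fin k) (N : ℕ) (hN : 4 * n * ((k - 1) * X.t) ≤ N)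
    (B : Fin m → Matrix (Fin n) (Fin n) F) (d : ℕ) (hd : d = 2 ^ (k * X.t)) :
    (∀ Y ∈ tests X cl i₀ N, (tens (cst F Y) B).rank ≤ d * pcRank B cl) ∧
      ∃ Y ∈ tests X cl i₀ N, d * pcRank B cl < (tens (cst F Y) B).rank + d := by
  subst hd
  have hn2 : n ≤ 2 * n := Nat.le_mul_of_pos_left n two_pos
  constructor
  · intro Y hY
    obtain ⟨p, -, rfl⟩ := Finset.mem_image.mp hY
    have h : MainAux.gr (ptup X cl) B = 2 ^ (k * X.t) * pcRank B cl :=
      MainAux.gr_ptup phase1 phase2 conv minor stRankGrid (MainAux.restrict X hn2) cl B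
    rw [← h, ← MainAux.big_eq]
    exact (stRankGrid F (Fin k × Fin X.t) n m (ptup X cl) B).1 _ _
  · obtain ⟨f, g, h4⟩ := MainAux.exists_sub B cl
    have hr := MainAux.pcRank_le B cl
    have hr2 : 2 * pcRank B cl ≤ 2 * n := Nat.mul_le_mul_left _ hr
    have hN' : 4 * pcRank B cl * ((k - 1) * X.t) ≤ N :=
      (Nat.mul_le_mul_right _ (Nat.mul_le_mul_left _ hr)).trans hN
    obtain ⟨c, e, hc, he, h5⟩ := exists_last stTorus symRank (MainAux.restrict X hr2) cl
      (fun j => (B j).submatrix f g)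
      (MainAux.gn_of_pc phase1 phase2 (MainAux.restrict X (hr.trans hn2)) cl _ h4) i₀ N hN'
    refine ⟨_, mem_tests (X := X) (i₀ := i₀) (c := c) (e := e) hc he, ?_⟩
    have h6 := MainAux.rank_tens_sub (cst F fun j => twist
      (fun i => if i.1 = i₀ then 1 else (c i : ℤ))
      (fun i => if i.1 = i₀ then 1 else (e i : ℤ)) (ptup X cl j)) B f g
    exact lt_of_lt_of_le h5 (Nat.add_le_add_right h6 _)

end Pool.Agent.Lib.MP_64d474_lc.Pc2
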